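import Pool.Agent.Helper69_SER.Stmts

/-!
# Squad SER, module SS
-/

set_option autoImplicit false

namespace SER.H63

/-- a refined transitivity of subquotients -/
theorem sq_ref {R : Type} [Ring R] {X Y Z : Type} [AddCommGroup X] [Module R X] [AddCommGroup Y]
    [Module R Y] [AddCommGroup Z] [Module R Z] (D : Submodule R Z) (φ : D →ₗ[R] Y)
    (hφ : Function.Surjective φ) (G : Submodule R Y) (ψ : G →ₗ[R] X)
    (hψ : Function.Surjective ψ) :
    ∃ (B : Submodule R Z) (hB : B ≤ D) (χ : B →ₗ[R] X), Function.Surjective χ ∧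
      ∀ b : B, φ ⟨(b : Z), hB b.2⟩ ∈ G := by
  let B : Submodule R Z := (G.comap φ).map D.subtype
  have hB : B ≤ D := by
    rintro z ⟨d, -, rfl⟩
    exact d.2
  have hG : ∀ b : B, φ ⟨(b : Z), hB b.2⟩ ∈ G := by
    rintro ⟨z, hz⟩
    obtain ⟨d, hd, hdz⟩ := hz
    have e : (⟨z, hB ⟨d, hd, hdz⟩⟩ : D) = d := Subtype.ext hdz.symm
    change φ ⟨z, _⟩ ∈ G
    rw [e]
    exact hd
  refine ⟨B, hB, ψ ∘ₗ ((φ ∘ₗ Submodule.inclusion hB).codRestrict G hG), ?_, hG⟩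
  intro x
  obtain ⟨g, rfl⟩ := hψ x
  obtain ⟨d, hd⟩ := hφ (g : Y)
  have hdG : d ∈ G.comap φ := by
    change φ d ∈ G
    rw [hd]
    exact g.2
  refine ⟨⟨(d : Z), d, hdG, rfl⟩, ?_⟩
  change ψ _ = ψ g
  congr 1
  exact Subtype.ext hd

/-- (SS) -/
theorem ss (hSL1 : SL1Stmt) (hD1q : D1qStmt) : SSStmt := by
  intro R _ V _ _ W _ _ hV hW f hf h1 h2
  obtain ⟨D, φ, hφ⟩ := h1
  obtain ⟨G, ψ, hψ⟩ := h2
  -- the projection V/f²V → V/fV
  have hle : LinearMap.range (f ∘ₗ f) ≤ (LinearMap.range f).comap (LinearMap.id : V →ₗ[R] V) := by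
    rintro x ⟨y, rfl⟩
    exact ⟨f y, rfl⟩
  let π : (V ⧸ LinearMap.range (f ∘ₗ f)) →ₗ[R] (V ⧸ LinearMap.range f) :=
    Submodule.mapQ _ _ LinearMap.id hle
  have hπ : Function.Surjective π := by
    intro y
    obtain ⟨v, rfl⟩ := Submodule.mkQ_surjective _ y
    exact ⟨Submodule.mkQ _ v, rfl⟩
  -- the injection V/fV → V/f²V induced by f
  have hle2 : LinearMap.range f ≤ (LinearMap.range (f ∘ₗ f)).comap f := by
    rintro x ⟨y, rfl⟩
    exact ⟨y, rfl⟩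
  let j : (V ⧸ LinearMap.range f) →ₗ[R] (V ⧸ LinearMap.range (f ∘ₗ f)) :=
    Submodule.mapQ _ _ f hle2
  have hj : Function.Injective j := by
    rw [← LinearMap.ker_eq_bot, Submodule.eq_bot_iff]
    intro x hx
    obtain ⟨v, rfl⟩ := Submodule.mkQ_surjective _ x
    have h3 : Submodule.mkQ (LinearMap.range (f ∘ₗ f)) (f v) = 0 := hx
    rw [Submodule.mkQ_apply, Submodule.Quotient.mk_eq_zero] at h3
    obtain ⟨u, hu⟩ := h3
    rw [Submodule.mkQ_apply, Submodule.Quotient.mk_eq_zero]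
    exact ⟨u, hf hu⟩
  have hπj : ∀ x, π (j x) = 0 := by
    intro x
    obtain ⟨v, rfl⟩ := Submodule.mkQ_surjective _ x
    change Submodule.mkQ (LinearMap.range f) (f v) = 0
    rw [Submodule.mkQ_apply, Submodule.Quotient.mk_eq_zero]
    exact ⟨v, rfl⟩
  let D₁ : Submodule R W := (LinearMap.ker (π ∘ₗ φ)).map D.subtype
  -- the mono
  obtain ⟨B, hB, χ, hχ, hBG⟩ := sq_ref D φ hφ (G.map j)
    (ψ ∘ₗ (Submodule.equivMapOfInjective j hj G).symm.toLinearMap)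
    (hψ.comp (Submodule.equivMapOfInjective j hj G).symm.surjective)
  obtain ⟨e⟩ := hSL1 R W hW B χ hχ
  have hBD : B ≤ D₁ := by
    intro b hb
    refine ⟨⟨b, hB hb⟩, ?_, rfl⟩
    change π (φ ⟨b, hB hb⟩) = 0
    obtain ⟨g, -, hg⟩ := hBG ⟨b, hb⟩
    change j g = φ ⟨b, hB hb⟩ at hg
    rw [← hg, hπj]
  -- W is a subquotient of W/D₁
  let g : D →ₗ[R] W ⧸ D₁ := D₁.mkQ ∘ₗ D.subtype
  have hker : LinearMap.ker g ≤ LinearMap.ker (π ∘ₗ φ) := by
    intro d hd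
    have h3 : D₁.mkQ (d : W) = 0 := hd
    rw [Submodule.mkQ_apply, Submodule.Quotient.mk_eq_zero] at h3
    obtain ⟨d', hd', h4⟩ := h3
    have h5 : d' = d := Subtype.ext h4
    rw [← h5]
    exact hd'
  let φ' : LinearMap.range g →ₗ[R] (V ⧸ LinearMap.range f) :=
    (LinearMap.ker g).liftQ (π ∘ₗ φ) hker ∘ₗ g.quotKerEquivRange.symm.toLinearMap
  have hφ' : Function.Surjective φ' := by
    intro y
    obtain ⟨y', rfl⟩ := hπ y
    obtain ⟨d, rfl⟩ := hφ y'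
    refine ⟨g.quotKerEquivRange (Submodule.mkQ _ d), ?_⟩
    change (LinearMap.ker g).liftQ (π ∘ₗ φ) hker (g.quotKerEquivRange.symm
      (g.quotKerEquivRange (Submodule.mkQ _ d))) = _
    rw [LinearEquiv.symm_apply_apply]
    rfl
  obtain ⟨E, -, χ', hχ', -⟩ := sq_ref (LinearMap.range g) φ' hφ' G ψ hψ
  obtain ⟨c, hc, hcD⟩ := hD1q R W hW D₁ ⟨E, χ', hχ'⟩
  refine ⟨c, B.subtype ∘ₗ e.symm.toLinearMap, hc, ?_, ?_⟩
  · exact (Submodule.subtype_injective B).comp e.symm.injective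
  · ext w
    exact hcD (hBD (e.symm w).2)

end SER.H63
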