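import Pool.Agent.Helper69_SER.Stmts

/-!
# Squad SER, module TOW: towers in a uniserial module
-/

set_option autoImplicit false

namespace SER.H63

section basics

variable {R : Type} [Ring R] {X Y : Type} [AddCommGroup X] [Module R X] [AddCommGroup Y]
  [Module R Y]

/-- (u1) -/
theorem u1 (hX : Chain R X) (f g : X →ₗ[R] Y) (h : Function.Injective (f + g)) :
    Function.Injective f ∨ Function.Injective g := by
  rcases hX (LinearMap.ker f) (LinearMap.ker g) with hc | hc
  · left
    rw [← LinearMap.ker_eq_bot, Submodule.eq_bot_iff]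
    intro x hx
    have h1 : f x = 0 := hx
    have h2 : g x = 0 := hc hx
    apply h
    rw [LinearMap.add_apply, h1, h2, map_zero, add_zero]
  · right
    rw [← LinearMap.ker_eq_bot, Submodule.eq_bot_iff]
    intro x hx
    have h1 : g x = 0 := hx
    have h2 : f x = 0 := hc hx
    apply h
    rw [LinearMap.add_apply, h1, h2, map_zero, add_zero]

/-- (u2) -/
theorem u2 (hY : Chain R Y) (f g : X →ₗ[R] Y) (h : Function.Surjective (f + g)) :
    Function.Surjective f ∨ Function.Surjective g := by
  rcases hY (LinearMap.range f) (LinearMap.range g) with hc | hc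
  · right
    intro y
    obtain ⟨x, rfl⟩ := h y
    have h1 : f x ∈ LinearMap.range g := hc ⟨x, rfl⟩
    have h2 : g x ∈ LinearMap.range g := ⟨x, rfl⟩
    exact (LinearMap.range g).add_mem h1 h2
  · left
    intro y
    obtain ⟨x, rfl⟩ := h y
    have h1 : g x ∈ LinearMap.range f := hc ⟨x, rfl⟩
    have h2 : f x ∈ LinearMap.range f := ⟨x, rfl⟩
    exact (LinearMap.range f).add_mem h2 h1

/-- (u4) -/
theorem u4 (hX : Chain R X) (hY : Chain R Y) (f g : X →ₗ[R] Y) (hf : Function.Injective f)
    (hf' : ¬ Function.Surjective f) (hg : Function.Surjective g)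
    (hg' : ¬ Function.Injective g) : Function.Bijective (f + g) := by
  constructor
  · have h : Function.Injective ((f + g) + (-g)) := by
      rw [add_neg_cancel_right]; exact hf
    rcases u1 hX _ _ h with h1 | h1
    · exact h1
    · exfalso
      apply hg'
      intro x y hxy
      apply h1
      rw [LinearMap.neg_apply, LinearMap.neg_apply, hxy]
  · have h : Function.Surjective ((f + g) + (-f)) := by
      have e : (f + g) + (-f) = g := by abel
      rw [e]; exact hg
    rcases u2 hY _ _ h with h1 | h1
    · exact h1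
    · exfalso
      apply hf'
      intro y
      obtain ⟨x, hx⟩ := h1 y
      exact ⟨-x, by rw [map_neg, ← LinearMap.neg_apply]; exact hx⟩

end basics

/-- (TOW) -/
theorem tow : TowStmt := by
  intro R _ W _ _ hW c m hc hm hcm
  obtain ⟨hnt, hch⟩ := hW
  have hm' : ¬ Function.Surjective m := by
    intro hs
    obtain ⟨x, hx⟩ := exists_ne (0 : W)
    obtain ⟨y, rfl⟩ := hc x
    obtain ⟨z, rfl⟩ := hs y
    apply hx
    exact LinearMap.congr_fun hcm z
  have hc' : ¬ Function.Injective c := by
    intro hi
    obtain ⟨x, hx⟩ := exists_ne (0 : W)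
    apply hx
    apply hm
    apply hi
    have h1 : c (m x) = 0 := LinearMap.congr_fun hcm x
    rw [h1, map_zero, map_zero]
  have hb := u4 hch hch m c hm hm' hc hc'
  -- the inverse
  obtain ⟨w, hw⟩ : ∃ w : Module.End R W, w = m + c := ⟨_, rfl⟩
  obtain ⟨v, hwv, hvw⟩ : ∃ v : Module.End R W, w * v = 1 ∧ v * w = 1 := by
    rw [hw]
    refine ⟨(LinearEquiv.ofBijective _ hb).symm.toLinearMap, ?_, ?_⟩
    · ext x
      exact (LinearEquiv.ofBijective _ hb).apply_symm_apply x
    · ext x
      exact (LinearEquiv.ofBijective _ hb).symm_apply_apply x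
  let m' : Module.End R W := m
  let c' : Module.End R W := c
  have hcm' : c' * m' = 0 := hcm
  have hwm : w * m' = m' * m' := by
    have e : w = m' + c' := hw
    rw [e, add_mul, hcm', add_zero]
  have hp : ∀ n : ℕ, w ^ n * v ^ n = 1 := fun n => pow_mul_pow_eq_one n hwv
  have hq : ∀ n : ℕ, v ^ n * w ^ n = 1 := fun n => pow_mul_pow_eq_one n hvw
  have injp : ∀ n : ℕ, Function.Injective (w ^ n) := by
    intro n x y hxy
    have := congrArg (v ^ n) hxy
    rwa [← Module.End.mul_apply, ← Module.End.mul_apply, hq, Module.End.one_apply,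
      Module.End.one_apply] at this
  have injv : ∀ n : ℕ, Function.Injective (v ^ n) := by
    intro n x y hxy
    have := congrArg (w ^ n) hxy
    rwa [← Module.End.mul_apply, ← Module.End.mul_apply, hp, Module.End.one_apply,
      Module.End.one_apply] at this
  have surp : ∀ n : ℕ, Function.Surjective (w ^ n) := by
    intro n x
    exact ⟨(v ^ n) x, by rw [← Module.End.mul_apply, hp, Module.End.one_apply]⟩
  let e : ℕ → Module.End R W := fun n => v ^ (n + 1) * m' * w ^ n
  have estep : ∀ n, e (n + 1) * e n = e n := by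
    intro n
    change (v ^ (n + 1 + 1) * m' * w ^ (n + 1)) * (v ^ (n + 1) * m' * w ^ n) =
      v ^ (n + 1) * m' * w ^ n
    have h1 : (v ^ (n + 1 + 1) * m' * w ^ (n + 1)) * (v ^ (n + 1) * m' * w ^ n)
        = v ^ (n + 1 + 1) * m' * (w ^ (n + 1) * v ^ (n + 1)) * m' * w ^ n := by
      simp only [mul_assoc]
    rw [h1, hp, mul_one, mul_assoc (v ^ (n + 1 + 1)) m' m', ← hwm, pow_succ v (n + 1)]
    have h2 : v ^ (n + 1) * v * (w * m') * w ^ n = v ^ (n + 1) * (v * w) * m' * w ^ n := by
      simp only [mul_assoc]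
    rw [h2, hvw, mul_one]
  have ee : ∀ k n, k < n → e n * e k = e k := by
    intro k n hkn
    induction n with
    | zero => omega
    | succ n ih =>
      rcases Nat.lt_succ_iff_lt_or_eq.mp hkn with h | h
      · have h3 := ih h
        rw [← h3, ← mul_assoc, estep n]
      · subst h
        exact estep k
  refine ⟨⟨fun n => e n, fun n => c' * w ^ (n + 1), ?_, ?_, ?_, ?_⟩⟩
  · intro n x y hxy
    apply injp n
    apply hm
    exact injv (n + 1) hxy
  · intro n x
    obtain ⟨y, rfl⟩ := hc x
    obtain ⟨z, rfl⟩ := surp (n + 1) y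
    exact ⟨z, rfl⟩
  · intro n x
    have h1 : (c' * w ^ (n + 1)) * e n = 0 := by
      change (c' * w ^ (n + 1)) * (v ^ (n + 1) * m' * w ^ n) = 0
      have h2 : (c' * w ^ (n + 1)) * (v ^ (n + 1) * m' * w ^ n)
          = c' * (w ^ (n + 1) * v ^ (n + 1)) * m' * w ^ n := by
        simp only [mul_assoc]
      rw [h2, hp, mul_one, hcm', zero_mul]
    exact LinearMap.congr_fun h1 x
  · intro k n hkn x
    exact LinearMap.congr_fun (ee k n hkn) x

end SER.H63
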